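import Pool.Agent.H18.Ae4

namespace Pool.Agent.Results.MP_8d7a8d_co.MinDeg

open Pool.Agent.H18.Ae

theorem result : ∃ d : ℕ, ∀ (V : Type) [Fintype V] [DecidableEq V] [Nonempty V]
    (E : Finset (Finset V)), (∀ e ∈ E, e.card ≤ 3) →
    (∀ e ∈ E, ∀ f ∈ E, e ≠ f → (e ∩ f).card ≤ 1) →
    (∀ v : V, d ≤ (E.filter (fun e => v ∈ e)).card) →
    EW E Finset.univ ∅ (decide (Even (Fintype.card V))) := by
  refine ⟨15, fun V _ _ _ E hr hl hd => main ?_ hr Finset.univ Finset.univ_nonempty ?_⟩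
  · intro e he f hf u v huv a b c d
    by_contra q
    have h1 := hl e he f hf q
    have h2 := Finset.card_le_one.1 h1 u (Finset.mem_inter.2 ⟨a, c⟩) v (Finset.mem_inter.2 ⟨b, d⟩)
    exact huv h2
  · intro v _
    simpa [deg] using hd v

end Pool.Agent.Results.MP_8d7a8d_co.MinDeg
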